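import Pool.Agent.V8H85.KS.Summand
import Pool.Agent.V8H85.Fam.Class

set_option autoImplicit false

/-! Positive definite hermitian forms over the integral group ring of an arbitrary group: unique
decomposition, cancellation, and the forms induced from the integers. Adding a positive definite
form never makes a form induced from `ℤ` which is not, and never makes two forms isometric which are
not, whereas adding an indefinite form does. The definitions are in
`Pool/Agent/V8H85/RF/Defs.lean` (`bar`, `HermForm`, `PosDef`, `Nonsingular`, `Extended`),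
`Pool/Agent/V8H85/Fam/Defs.lean` (`Lam`, `HasGram`, `Isometric`, `SumNegOneMetabolic`) and
`Pool/Agent/V8H85/KS/Defs.lean` (`osum`, `Orth`, `UniversalDecomposition`). -/

namespace Pool.Agent.Results.MP_8a3537_gt.DefiniteStabilization

open Pool.Agent.V8H85.RF Pool.Agent.V8H85.Fam Pool.Agent.V8H85.KS

universe u v

theorem swap_isometric {Γ : Type v} [Group Γ] {P M : Type u} [AddCommGroup P]
    [Module (MonoidAlgebra ℤ Γ) P] [AddCommGroup M] [Module (MonoidAlgebra ℤ Γ) M]
    (h : HermForm Γ P) (k : HermForm Γ M) : Isometric (osum h k) (osum k h) :=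
  ⟨LinearEquiv.prodComm _ _ _, fun u v => add_comm (k.val u.2 v.2) (h.val u.1 v.1)⟩

/-- Let `Γ` be any group. (1) Every positive definite hermitian form on a finitely generated module
over `ℤΓ` has a finite universal orthogonal decomposition, which is unique up to order. (2) A
positive definite form on a finitely generated module can be cancelled from orthogonal sums of
positive definite forms. (3) An orthogonal sum of two positive definite forms is induced from `ℤ`
only if both terms are. (4) If `x` in `ℤΓ` is self-adjoint with an odd coefficient away from the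
identity, the form with matrix `Λ(x)` stays not induced from `ℤ` after adding any positive definite
form, while its sum with the form `-1` of rank four is metabolic. -/
theorem result {Γ : Type v} [Group Γ] :
    (∀ (P : Type u) [AddCommGroup P] [Module (MonoidAlgebra ℤ Γ) P] (h : HermForm Γ P), h.PosDef →
      (Module.Finite (MonoidAlgebra ℤ Γ) P →
        ∃ (n : ℕ) (S : Fin n → Submodule (MonoidAlgebra ℤ Γ) P), UniversalDecomposition h S) ∧
      ∀ (ι κ : Type u) (S : ι → Submodule (MonoidAlgebra ℤ Γ) P)
        (T : κ → Submodule (MonoidAlgebra ℤ Γ) P), UniversalDecomposition h S →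
        UniversalDecomposition h T → ∃ e : ι ≃ κ, ∀ i, S i = T (e i)) ∧
    (∀ (P P' M : Type u) [AddCommGroup P] [Module (MonoidAlgebra ℤ Γ) P] [AddCommGroup P']
      [Module (MonoidAlgebra ℤ Γ) P'] [AddCommGroup M] [Module (MonoidAlgebra ℤ Γ) M]
      [Module.Finite (MonoidAlgebra ℤ Γ) M] (h : HermForm Γ P) (h' : HermForm Γ P')
      (k : HermForm Γ M), h.PosDef → h'.PosDef → k.PosDef →
        Isometric (osum h k) (osum h' k) → Isometric h h') ∧
    (∀ (P M : Type u) [AddCommGroup P] [Module (MonoidAlgebra ℤ Γ) P] [AddCommGroup M]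
      [Module (MonoidAlgebra ℤ Γ) M] (h : HermForm Γ P) (k : HermForm Γ M), h.PosDef → k.PosDef →
        (osum h k).Extended → h.Extended ∧ k.Extended) ∧
    (∀ (x : MonoidAlgebra ℤ Γ) (h : HermForm Γ (Fin 4 → MonoidAlgebra ℤ Γ)), HasGram h (Lam x) →
      (∃ g : Γ, g ≠ 1 ∧ Odd (x.coeff g)) →
      SumNegOneMetabolic h ∧ ∀ (M : Type u) [AddCommGroup M] [Module (MonoidAlgebra ℤ Γ) M]
        (k : HermForm Γ M), k.PosDef → ¬ (osum h k).Extended) := by
  refine ⟨?_, ?_, ?_, ?_⟩
  · intro P _ _ h hp
    refine ⟨fun hfin => ?_, fun ι κ S T hS hT => exists_equiv hp hS hT⟩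
    have u1 := universal_piece hp
    have hf := finite_of_universal hp u1
    obtain ⟨n, ⟨e⟩⟩ := Finite.exists_equiv_fin (Ix hp)
    refine ⟨n, fun i => piece hp (e.symm i), fun i => u1.1 _,
      fun i j hij => u1.2.1 _ _ (fun h3 => hij (e.symm.injective h3)), ?_,
      fun X Y hXY hT i => u1.2.2.2 X Y hXY hT _⟩
    rw [← u1.2.2.1]
    exact e.symm.iSup_comp (g := piece hp)
  · intro P P' M _ _ _ _ _ _ _ h h' k hp hp' kp H
    exact cancel hp hp' kp H
  · intro P M _ _ _ _ h k hp kp H
    refine ⟨extended_of_osum hp kp H, extended_of_osum kp hp ?_⟩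
    exact Extended.of_isometric (swap_isometric k h) H
  · rintro x h hh ⟨g, hg, hodd⟩
    refine ⟨metabolic hh, ?_⟩
    intro M _ _ k kp H
    have h1 := even_of_extended hh (extended_of_osum (posDef hh) kp H) hg
    exact (Int.not_even_iff_odd.2 hodd) h1

end Pool.Agent.Results.MP_8a3537_gt.DefiniteStabilization
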