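import Pool.Agent.V8H85.Fam.Class

set_option autoImplicit false

/-! A family of positive definite nonsingular forms of rank four over the integral group ring of an
arbitrary group, indexed by the self-adjoint elements `x` of the group ring: `Λ(x)` is induced from
the integers if and only if all coefficients of `x` away from the identity are even, but
`Λ(x) ⊥ -1⁴` is always metabolic. The definitions are in `Pool/Agent/V8H85/RF/Defs.lean` (`bar`,
`HermForm`, `PosDef`, `Nonsingular`, `Extended`) and `Pool/Agent/V8H85/Fam/Defs.lean` (`Lam`,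
`HasGram`, `Isometric`, `SumNegOneMetabolic`). -/

namespace Pool.Agent.Results.MP_8a3537_gt.ExoticFamily

open Pool.Agent.V8H85.RF Pool.Agent.V8H85.Fam

universe u

/-- Let `Γ` be any group. (1) For every self-adjoint `x` in `ℤΓ` there is a hermitian form on
`(ℤΓ)⁴` with Gram matrix `Λ(x)`. (2) Every such form is positive definite and nonsingular, its sum
with the form `-1` of rank four is metabolic (so it has the symmetric Witt class of the form `1` of
rank four, which comes from `ℤ`), and it is induced from a form over `ℤ` if and only if the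
coefficients of `x` away from the identity are even. (3) If `x` and `x'` are congruent modulo two,
the forms are isometric. -/
theorem result (Γ : Type u) [Group Γ] :
    (∀ x : MonoidAlgebra ℤ Γ, bar x = x →
      ∃ h : HermForm Γ (Fin 4 → MonoidAlgebra ℤ Γ), HasGram h (Lam x)) ∧
    (∀ (x : MonoidAlgebra ℤ Γ) (h : HermForm Γ (Fin 4 → MonoidAlgebra ℤ Γ)), HasGram h (Lam x) →
      h.PosDef ∧ h.Nonsingular ∧ SumNegOneMetabolic h ∧
      (h.Extended ↔ ∀ g : Γ, g ≠ 1 → Even (x.coeff g))) ∧
    (∀ (x x' y : MonoidAlgebra ℤ Γ) (h h' : HermForm Γ (Fin 4 → MonoidAlgebra ℤ Γ)),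
      HasGram h (Lam x) → HasGram h' (Lam x') → x = x' + 2 * y → Isometric h h') :=
  ⟨fun _ hx => ⟨form hx, form_gram hx⟩,
    fun _ _ hh => ⟨posDef hh, nonsingular hh, metabolic hh,
      fun hE _ hg => even_of_extended hh hE hg, extended_of_even hh⟩,
    fun _ _ _ _ _ hh hh' hxy => isometric_of_congr hh hh' hxy⟩

end Pool.Agent.Results.MP_8a3537_gt.ExoticFamily
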