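import Pool.Agent.V8H85.Iso.Final

set_option autoImplicit false

/-! Isometries between definite hermitian forms over a group ring `R[Γ]` which are induced from the
coefficient ring: they are, up to an isometry over `R`, diagonal with group elements as entries for
an orthogonal decomposition over `R`. The definitions (`rbar`, `adj`, `sM`, `PosDefM`) are in
`Pool/Agent/V8H85/Iso/Defs.lean`. -/

namespace Pool.Agent.Results.MP_8a3537_gt.Isometries

open Pool.Agent.V8H85.Iso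
open scoped Matrix

universe u v

/-- Let `R` be a ring with involution, `τ : R → ℤ` additive with `τ (star r) = τ r`, let `Γ` be any
group and let `Q`, `Q'` be hermitian matrices over `R` which are positive definite with respect to
`τ`. A matrix `E` over `R[Γ]` is invertible with `E Q' E* = Q` if and only if
`E = ∑_{g ∈ S} g · π g F` for a finite set `S` of group elements, an invertible matrix `F` over `R`
with `F Q' F* = Q`, and orthogonal idempotent matrices `π g` over `R` with sum one and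
`π g Q = Q (π g)*`. In particular the forms `Q` and `Q'` are isometric over `R[Γ]` if and only if
they are isometric over `R`. -/
theorem result {R : Type u} [Ring R] [StarRing R] (τ : R →+ ℤ) (hτ : ∀ r, τ (star r) = τ r)
    {Γ : Type v} [Group Γ] {m n : ℕ}
    (Q : Matrix (Fin m) (Fin m) R) (Q' : Matrix (Fin n) (Fin n) R) (hQ : Qᴴ = Q) (hQ' : Q'ᴴ = Q')
    (pQ : PosDefM τ Q) (pQ' : PosDefM τ Q') :
    (∀ E : Matrix (Fin m) (Fin n) (MonoidAlgebra R Γ),
      ((∃ E' : Matrix (Fin n) (Fin m) (MonoidAlgebra R Γ), E * E' = 1 ∧ E' * E = 1) ∧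
        E * sM (1 : Γ) Q' * adj E = sM 1 Q) ↔
      ∃ (F : Matrix (Fin m) (Fin n) R) (S : Finset Γ) (π : Γ → Matrix (Fin m) (Fin m) R),
        (∃ F' : Matrix (Fin n) (Fin m) R, F * F' = 1 ∧ F' * F = 1) ∧ F * Q' * Fᴴ = Q ∧
        (∀ g ∈ S, ∀ h ∈ S, g ≠ h → π g * π h = 0) ∧ (∀ g ∈ S, π g * π g = π g) ∧
        ∑ g ∈ S, π g = 1 ∧ (∀ g ∈ S, π g * Q = Q * (π g)ᴴ) ∧
        E = ∑ g ∈ S, sM g (π g * F)) ∧
    ((∃ (E : Matrix (Fin m) (Fin n) (MonoidAlgebra R Γ))
        (E' : Matrix (Fin n) (Fin m) (MonoidAlgebra R Γ)),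
        E * E' = 1 ∧ E' * E = 1 ∧ E * sM (1 : Γ) Q' * adj E = sM 1 Q) ↔
      ∃ (F : Matrix (Fin m) (Fin n) R) (F' : Matrix (Fin n) (Fin m) R),
        F * F' = 1 ∧ F' * F = 1 ∧ F * Q' * Fᴴ = Q) := by
  refine ⟨fun E => final τ hτ Q Q' hQ hQ' pQ pQ' E, ?_, ?_⟩
  · rintro ⟨E, E', h1, h2, h3⟩
    obtain ⟨F, -, -, ⟨F', f1, f2⟩, f3, -⟩ :=
      (final τ hτ Q Q' hQ hQ' pQ pQ' E).1 ⟨⟨E', h1, h2⟩, h3⟩
    exact ⟨F, F', f1, f2, f3⟩
  · rintro ⟨F, F', f1, f2, f3⟩
    refine ⟨sM 1 F, sM 1 F', ?_, ?_, ?_⟩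
    · rw [sM_mul, f1, one_mul, sM_one]
    · rw [sM_mul, f2, one_mul, sM_one]
    · rw [adj_sM, sM_mul, sM_mul, inv_one, one_mul, one_mul, f3]

end Pool.Agent.Results.MP_8a3537_gt.Isometries
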