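import Pool.Agent.V8H85.RF.Example

set_option autoImplicit false

/-! Positive definite nonsingular hermitian forms over the integral group ring `ℤΓ` of a torsion-free
group `Γ`: those generated by vectors of norm at most two are induced from the integers, and two is
the exact bound. The definitions (`bar`, `HermForm`, `Nonsingular`, `PosDef`, `GeneratedBy`,
`Extended`) are in `Pool/Agent/V8H85/RF/Defs.lean`. -/

namespace Pool.Agent.Results.MP_8a3537_gt.RootForms

open Pool.Agent.V8H85.RF

universe u v

/-- Let `Γ` be a torsion-free group. (1) Every positive definite nonsingular hermitian form on a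
finitely generated projective `ℤΓ`-module, which is generated as a `ℤΓ`-module by vectors `x` such
that the coefficient of the identity in `h x x` is at most two, is induced from a form over `ℤ`.
(2) If `Γ` is not trivial, there is a positive definite nonsingular hermitian form on `(ℤΓ)⁴` which
is generated by vectors of norm at most three and is not induced from a form over `ℤ`. -/
theorem result (Γ : Type u) [Group Γ] (htf : ∀ g : Γ, ∀ k : ℕ, 0 < k → g ^ k = 1 → g = 1) :
    (∀ (P : Type v) [AddCommGroup P] [Module (MonoidAlgebra ℤ Γ) P]
        [Module.Finite (MonoidAlgebra ℤ Γ) P] [Module.Projective (MonoidAlgebra ℤ Γ) P]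
        (h : HermForm Γ P), h.Nonsingular → h.PosDef → h.GeneratedBy 2 → h.Extended) ∧
    (Nontrivial Γ → ∃ h : HermForm Γ (Fin 4 → MonoidAlgebra ℤ Γ),
        h.Nonsingular ∧ h.PosDef ∧ h.GeneratedBy 3 ∧ ¬ h.Extended) := by
  refine ⟨fun P _ _ _ _ h hns hp hgen => HermForm.main h htf hns hp hgen, fun hnt => ?_⟩
  obtain ⟨t, ht⟩ := exists_ne (1 : Γ)
  have ht2 : t * t ≠ 1 := fun h => ht (htf t 2 two_pos (by rw [pow_two]; exact h))
  exact ⟨HermForm.exForm t, HermForm.exForm_nonsingular t, HermForm.exForm_posDef t,
    HermForm.exForm_gen t ht ht2, HermForm.exForm_not_extended t ht ht2⟩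

end Pool.Agent.Results.MP_8a3537_gt.RootForms
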